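import Pool.Agent.Helper41_CM.Uni

/-!
# CM, module NRM
-/

set_option autoImplicit false

noncomputable section

namespace Pool.Agent.Helper95_CM.H41

open Polynomial NumberField

/-- a nonzero algebraic integer cannot be much smaller `p`-adically than its norm -/
theorem dvd_norm_of_norm_le {K : Type} [Field K] [NumberField K] (z : 𝓞 K) {p : ℕ} [Fact p.Prime]
    (ι : K →+* ℚ_[p]) (n : ℕ) (h : ‖ι (z : K)‖ ≤ ((p : ℝ) ^ n)⁻¹) :
    ((p : ℤ) ^ n) ∣ Algebra.norm ℤ z := by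
  have h1 : ((Ideal.absNorm (Ideal.span {z}) : ℕ) : 𝓞 K) ∈ Ideal.span {z} :=
    Ideal.absNorm_mem _
  rw [Ideal.absNorm_span_singleton] at h1
  obtain ⟨w, hw⟩ := Ideal.mem_span_singleton.1 h1
  have h2 : ι ((((Algebra.norm ℤ z).natAbs : ℕ) : 𝓞 K) : K) = ι (z : K) * ι (w : K) := by
    rw [hw]
    push_cast
    rw [map_mul]
  have h3 : ‖(((Algebra.norm ℤ z).natAbs : ℕ) : ℚ_[p])‖ ≤ ((p : ℝ) ^ n)⁻¹ := by
    have h4 : ι ((((Algebra.norm ℤ z).natAbs : ℕ) : 𝓞 K) : K) =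
        (((Algebra.norm ℤ z).natAbs : ℕ) : ℚ_[p]) := by
      simp
    rw [← h4, h2, norm_mul]
    have h5 : ‖ι (w : K)‖ ≤ 1 := norm_le_one_of_isIntegral (map_isIntegral_int ι w.2)
    calc ‖ι (z : K)‖ * ‖ι (w : K)‖ ≤ ‖ι (z : K)‖ * 1 := by gcongr
      _ ≤ _ := by rw [mul_one]; exact h
  have h6 : ((p : ℤ) ^ n) ∣ (((Algebra.norm ℤ z).natAbs : ℕ) : ℤ) := by
    rw [← Padic.norm_int_le_pow_iff_dvd]
    rw [zpow_neg, zpow_natCast, Int.cast_natCast]
    exact h3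
  rwa [Int.natCast_natAbs, dvd_abs] at h6

theorem abs_norm_le {K : Type} [Field K] [NumberField K] (z : 𝓞 K) (B : ℝ)
    (hB : ∀ σ : K →ₐ[ℚ] ℂ, ‖σ (z : K)‖ ≤ B) :
    |((Algebra.norm ℤ z : ℤ) : ℝ)| ≤ B ^ Module.finrank ℚ K := by
  have h1 : ((Algebra.norm ℤ z : ℤ) : ℂ) = ∏ σ : K →ₐ[ℚ] ℂ, σ (z : K) := by
    rw [← Algebra.norm_eq_prod_embeddings ℚ ℂ (z : K), ← Algebra.coe_norm_int]
    simp
  have h2 : |((Algebra.norm ℤ z : ℤ) : ℝ)| = ‖((Algebra.norm ℤ z : ℤ) : ℂ)‖ := by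
    rw [Complex.norm_intCast]
  rw [h2, h1, norm_prod]
  calc ∏ σ : K →ₐ[ℚ] ℂ, ‖σ (z : K)‖ ≤ ∏ _σ : K →ₐ[ℚ] ℂ, B :=
        Finset.prod_le_prod (fun _ _ => norm_nonneg _) fun σ _ => hB σ
    _ = B ^ Module.finrank ℚ K := by
        rw [Finset.prod_const, Finset.card_univ, AlgHom.card]

theorem exists_bound {K : Type} [Field K] [NumberField K] (x : K) :
    ∃ A : ℕ, ∀ σ : K →ₐ[ℚ] ℂ, ‖σ x‖ ≤ A := by
  obtain ⟨A, hA⟩ := exists_nat_ge (∑ σ : K →ₐ[ℚ] ℂ, ‖σ x‖)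
  exact ⟨A, fun σ => (Finset.single_le_sum (f := fun σ : K →ₐ[ℚ] ℂ => ‖σ x‖)
    (fun _ _ => norm_nonneg _) (Finset.mem_univ σ)).trans hA⟩

theorem nrm : NrmStmt := by
  intro K _ _ a a' C
  obtain ⟨d, hd, h⟩ := exists_int_mul a
  obtain ⟨e, he, h'⟩ := exists_int_mul a'
  obtain ⟨A, hA⟩ := exists_bound a
  obtain ⟨A', hA'⟩ := exists_bound a'
  set n := Module.finrank ℚ K with hn
  set D : ℕ := (d * e).natAbs with hD
  have hD0 : 0 < D := Int.natAbs_pos.2 (mul_ne_zero hd he)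
  set B : ℕ := D * (A + A' + C) with hB
  refine ⟨B ^ n + 1, ?_⟩
  intro p _ hp ι m hm hz
  by_contra hne
  have hpp : 0 < p := (Fact.out : p.Prime).pos
  -- the algebraic integer
  have hint : IsIntegral ℤ (((D : ℕ) : K) * ((p : K) * a - a' - (m : K))) := by
    have e1 : ((D : ℕ) : K) * ((p : K) * a - a' - (m : K)) =
        ((d * e).sign : K) * ((e : K) * (p : K) * ((d : K) * a) - (d : K) * ((e : K) * a') -
          (d : K) * (e : K) * (m : K)) := by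
      have e2 : ((D : ℕ) : K) = ((d * e).sign : K) * ((d : K) * (e : K)) := by
        have e3 : ((D : ℕ) : ℤ) = (d * e).sign * (d * e) := by
          rw [hD, Int.natCast_natAbs, Int.sign_mul_self_eq_abs]
        have e4 : (((D : ℕ) : ℤ) : K) = (((d * e).sign * (d * e) : ℤ) : K) := by rw [e3]
        push_cast at e4
        exact e4
      rw [e2]
      ring
    rw [e1]
    have hi : ∀ k : ℤ, IsIntegral ℤ (k : K) := fun k => by
      simpa using (isIntegral_algebraMap (R := ℤ) (A := K) (x := k))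
    have hi' : ∀ k : ℕ, IsIntegral ℤ (k : K) := fun k => by
      simpa using hi k
    exact (hi _).mul (((((hi e).mul (hi' p)).mul h).sub ((hi d).mul h')).sub
      (((hi d).mul (hi e)).mul (hi m)))
  set z : 𝓞 K := ⟨_, hint⟩ with hzdef
  have hzv : (z : K) = ((D : ℕ) : K) * ((p : K) * a - a' - (m : K)) := rfl
  have hz0 : z ≠ 0 := by
    intro h0
    have h1 : (z : K) = 0 := by rw [h0]; rfl
    rw [hzv, mul_eq_zero] at h1
    rcases h1 with h1 | h1
    · have : D = 0 := by exact_mod_cast h1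
      omega
    · exact hne h1
  have hnorm0 : Algebra.norm ℤ z ≠ 0 := by
    rw [Ne, Algebra.norm_eq_zero_iff]; exact hz0
  have h1 : ‖ι (z : K)‖ ≤ ((p : ℝ) ^ (n + 1))⁻¹ := by
    rw [hzv, map_mul, norm_mul, map_natCast]
    have h2 : ‖((D : ℕ) : ℚ_[p])‖ ≤ 1 := by
      have := Padic.norm_int_le_one (p := p) (D : ℤ)
      simpa using this
    calc _ ≤ 1 * ‖ι ((p : K) * a - a' - (m : K))‖ := by gcongr
      _ ≤ _ := by rw [one_mul]; exact hz
  have h3 := dvd_norm_of_norm_le z ι (n + 1) h1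
  have h4 : ((p : ℤ) ^ (n + 1)) ≤ |Algebra.norm ℤ z| := by
    exact Int.le_of_dvd (abs_pos.2 hnorm0) ((dvd_abs _ _).2 h3)
  have h5 : |((Algebra.norm ℤ z : ℤ) : ℝ)| ≤ ((B : ℝ) * p) ^ n := by
    refine abs_norm_le z _ ?_
    intro σ
    rw [hzv, map_mul, map_sub, map_sub, map_mul, norm_mul]
    simp only [map_natCast, map_intCast]
    have h6 : ‖((D : ℕ) : ℂ)‖ = D := by simp
    rw [h6]
    have hm' : ‖((m : ℤ) : ℂ)‖ ≤ C * p := by
      rw [Complex.norm_intCast]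
      exact_mod_cast hm
    have hp1 : (1 : ℝ) ≤ p := by exact_mod_cast hpp
    have h7 : ‖(p : ℂ) * σ a - σ a' - (m : ℂ)‖ ≤ (A + A' + C) * p := by
      calc ‖(p : ℂ) * σ a - σ a' - (m : ℂ)‖ ≤ ‖(p : ℂ) * σ a‖ + ‖σ a'‖ + ‖(m : ℂ)‖ := by
            refine (norm_sub_le _ _).trans ?_
            gcongr
            exact norm_sub_le _ _
        _ ≤ p * A + A' + C * p := by
            rw [norm_mul, Complex.norm_natCast]
            gcongr
            · exact hA σ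
            · exact hA' σ
        _ ≤ (A + A' + C) * p := by
            have : (A' : ℝ) ≤ A' * p := le_mul_of_one_le_right (by positivity) hp1
            nlinarith
    calc (D : ℝ) * ‖(p : ℂ) * σ a - σ a' - (m : ℂ)‖ ≤ D * ((A + A' + C) * p) := by gcongr
      _ = (B : ℝ) * p := by rw [hB]; push_cast; ring
  have h8 : ((p : ℝ) ^ (n + 1)) ≤ ((B : ℝ) * p) ^ n := by
    refine le_trans ?_ h5
    exact_mod_cast h4
  have h9 : ((p : ℝ) ^ n) * p ≤ (B : ℝ) ^ n * (p : ℝ) ^ n := by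
    rw [← pow_succ, ← mul_pow]; exact h8
  have h10 : (0 : ℝ) < (p : ℝ) ^ n := by
    have : (0 : ℝ) < p := by exact_mod_cast hpp
    positivity
  have h11 : (p : ℝ) ≤ (B : ℝ) ^ n := by
    by_contra hc
    push Not at hc
    nlinarith
  have h12 : p ≤ B ^ n := by exact_mod_cast h11
  omega

end Pool.Agent.Helper95_CM.H41
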