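import Pool.Agent.Helper95_CM.StK

/-!
# CM, modules UNI, NRM, SPLIT
-/

set_option autoImplicit false

noncomputable section

namespace Pool.Agent.Helper95_CM.H41

open Polynomial

/-- an element of `ℚ_p` integral over `ℤ` has norm at most one -/
theorem norm_le_one_of_isIntegral {p : ℕ} [Fact p.Prime] {y : ℚ_[p]} (hy : IsIntegral ℤ y) :
    ‖y‖ ≤ 1 := by
  have h : IsIntegral ℤ_[p] y := hy.tower_top
  obtain ⟨z, hz⟩ := (IsIntegrallyClosed.isIntegral_iff (R := ℤ_[p]) (K := ℚ_[p])).1 h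
  rw [← hz]
  exact z.2

theorem exists_int_mul {K : Type} [Field K] [NumberField K] (x : K) :
    ∃ d : ℤ, d ≠ 0 ∧ IsIntegral ℤ ((d : K) * x) := by
  obtain ⟨y, hy, h⟩ := IsAlgebraic.exists_integral_multiple (R := ℤ) (z := x)
    ((IsFractionRing.isAlgebraic_iff ℤ ℚ K).2 (Algebra.IsAlgebraic.isAlgebraic x))
  exact ⟨y, hy, by simpa [Algebra.smul_def] using h⟩

theorem norm_int_eq_one {p : ℕ} [Fact p.Prime] {d : ℤ} (hd : d ≠ 0) (hp : d.natAbs < p) :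
    ‖(d : ℚ_[p])‖ = 1 := by
  have h1 : ‖(d : ℚ_[p])‖ ≤ 1 := Padic.norm_int_le_one d
  by_contra h
  have h2 : ‖(d : ℚ_[p])‖ < 1 := lt_of_le_of_ne h1 h
  have h3 : (p : ℤ) ∣ d := Padic.norm_intCast_lt_one_iff.1 h2
  have h4 := Int.natAbs_dvd_natAbs.2 h3
  have h5 := Nat.le_of_dvd (Int.natAbs_pos.2 hd) h4
  simp at h5
  omega

theorem uni : UniStmt := by
  intro K _ _ x hx
  obtain ⟨d, hd, h⟩ := exists_int_mul x
  obtain ⟨e, he, h'⟩ := exists_int_mul x⁻¹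
  refine ⟨d.natAbs + e.natAbs + 1, ?_⟩
  intro p _ hp ι
  have a1 : ‖ι ((d : K) * x)‖ ≤ 1 := norm_le_one_of_isIntegral (map_isIntegral_int ι h)
  have a2 : ‖ι ((e : K) * x⁻¹)‖ ≤ 1 := norm_le_one_of_isIntegral (map_isIntegral_int ι h')
  rw [map_mul, map_intCast, norm_mul, norm_int_eq_one hd (by omega), one_mul] at a1
  rw [map_mul, map_intCast, norm_mul, norm_int_eq_one he (by omega), one_mul, map_inv₀,
    norm_inv] at a2
  have a3 : 0 < ‖ι x‖ := norm_pos_iff.2 ((map_ne_zero ι).2 hx)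
  have a4 := (inv_le_one₀ a3).1 a2
  exact le_antisymm a1 a4

end Pool.Agent.Helper95_CM.H41
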